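import Pool.Agent.W983.PL.Lam
import Pool.Agent.W983.PL.Fin
import Pool.Agent.W805.PCVF
import Pool.Agent.W701.PC.LK
import Pool.Agent.W202.PCMax
import Pool.Agent.W639.PCSig
import Pool.Agent.W55.PCSiglam
import Pool.Agent.W571.PC.BC
import Pool.Agent.W922.PCPL
import Pool.Agent.W571.PC.HOM
import Pool.Agent.W381.PCMap
import Pool.Agent.W696.PCCon
import Pool.Agent.W827.PCWC
import Pool.Agent.W152.PCFix
import Pool.Agent.W237.PC.Word
import Pool.Agent.W800.PCDisc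
import Pool.Agent.W791.PC.NF
import Pool.Agent.W395.PC.SG
import Pool.Agent.W368.PCAvcut
import Pool.Agent.W782.PCPos
import Pool.Agent.W205.PCFill
import Pool.Agent.W214.PC.Col
import Pool.Agent.W789.PCAR
import Pool.Agent.W409.PCD1A
import Pool.Agent.W237.PC.D1B
import Pool.Agent.W294.PC.D1C
import Pool.Agent.W431.PCD1D
import Pool.Agent.W863.PC.D1
import Pool.Agent.W589.PCD2.D2
import Pool.Agent.W403.PCD3

set_option autoImplicit false

namespace Pool.Agent.W983.PL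

/-- The answer to Q1 is negative. -/
theorem notQ1 : ¬ Q1 := by
  have hBC : S_BC := Pool.Agent.W571.PC.t_BC
  have hPL : S_PL := Pool.Agent.W922.PCPL.pl hBC
  have hMAP : S_MAP := Pool.Agent.W381.PCMap.map hBC
  have hCON : S_CON := Pool.Agent.W696.PCCon.con hBC
  have hWC : S_WC := Pool.Agent.W827.PCWC.wc hBC hMAP hCON
  have hPOS : S_POS := Pool.Agent.W782.PCPos.pos hBC
  have hAR : S_AR := Pool.Agent.W789.PCAR.main
  have hARC : S_ARC := Pool.Agent.W701.PC.arc'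
  have hAV : S_AV := Pool.Agent.W368.PCAvcut.av
  have hCUT : S_CUT := Pool.Agent.W368.PCAvcut.cut hBC
  have hCOL : S_COL := Pool.Agent.W214.PC.col hBC hAV hPOS
  have hD1A : S_D1A := Pool.Agent.W409.PCD1A.main hBC hPOS hAR
  have hD1B : S_D1B := Pool.Agent.W237.PC.D1B hBC hPOS hAR
  have hD1C : S_D1C := Pool.Agent.W294.PC.main hBC hPOS hARC
  have hD1D : S_D1D := Pool.Agent.W431.PCD1D.t_D1D hPOS hARC
  have hD1 : S_D1 := Pool.Agent.W863.PC.d1 hD1A hD1B hD1C hD1D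
  have hD2 : S_D2 := Pool.Agent.W589.PCD2.d2 hBC hPOS
  have hD3 : S_D3 := Pool.Agent.W403.PCD3.main hBC hPOS hAR hWC hD2
  have hMAX : S_MAX := Pool.Agent.W202.PCMax.main Pool.Agent.W805.PCVF.vf Pool.Agent.W701.PC.lk
  exact notQ1_of hPL Pool.Agent.W571.PC.t_HOM hWC Pool.Agent.W152.PCFix.fix
    Pool.Agent.W237.PC.word Pool.Agent.W237.PC.tf Pool.Agent.W800.PCDisc.disc
    (Pool.Agent.W791.PC.NF.main hBC hMAP) (Pool.Agent.W395.PC.main hBC)
    Pool.Agent.W639.PCSig.main Pool.Agent.W55.PC.siglam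
    (lam_of hPOS hAV hCUT Pool.Agent.W205.PCFill.t_FILL hCOL hD1 hD3 hMAX)

end Pool.Agent.W983.PL
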