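import Mathlib

/-!
# MP_fe6d1a_gt: pants-like COL_2 groups: definitions and statements of the parts

Text of the proof: table heavy / subtask specs (helper983).
-/
set_option autoImplicit false
open Set Topology

namespace Pool.Agent.W983.PL

/-! ## The notions of the problem -/

/-- homeomorphisms of the circle -/
abbrev HC := Circle ≃ₜ Circle

/-- Twice the signed Euclidean area of the triangle with vertices `a`, `b`, `c`. -/
noncomputable def area (a b c : ℂ) : ℝ :=
  (b.re - a.re) * (c.im - a.im) - (b.im - a.im) * (c.re - a.re)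

/-- `a`, `b`, `c` are three distinct points of the circle, met in this order when one goes
around the circle counterclockwise. -/
def Ccw (a b c : Circle) : Prop := 0 < area a b c

/-- A homeomorphism of the circle is orientation preserving when it preserves the
counterclockwise cyclic order. -/
def OrientationPreserving (f : HC) : Prop :=
  ∀ a b c : Circle, Ccw a b c → Ccw (f a) (f b) (f c)

/-- The pairs `{a, b}` and `{c, d}` are linked: their chords cross inside the open disc. -/
def Linked (a b c d : Circle) : Prop :=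
  (Ccw a b c ∧ Ccw b a d) ∨ (Ccw b a c ∧ Ccw a b d)

/-- A lamination of the circle: a set of unordered pairs of distinct points (coded as a
symmetric set of ordered pairs), closed in the space of pairs of distinct points, no two of whose
members (leaves) are linked. -/
structure IsLamination (Λ : Set (Circle × Circle)) : Prop where
  symm : ∀ a b, (a, b) ∈ Λ → (b, a) ∈ Λ
  ne : ∀ a b, (a, b) ∈ Λ → a ≠ b
  closed : ∀ a b, a ≠ b → (a, b) ∈ closure Λ → (a, b) ∈ Λ
  unlinked : ∀ a b c d, (a, b) ∈ Λ → (c, d) ∈ Λ → ¬ Linked a b c d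

/-- `E(Λ)`: the set of endpoints of the leaves. -/
def Ends (Λ : Set (Circle × Circle)) : Set Circle := {a | ∃ b, (a, b) ∈ Λ}

/-- The open unit disc minus the union of the geodesics joining the endpoints of the leaves.
We use the projective (Klein) model of the hyperbolic plane, where the geodesic joining two
points of the circle is the open chord. -/
def complementary (Λ : Set (Circle × Circle)) : Set ℂ :=
  Metric.ball (0 : ℂ) 1 \ ⋃ l ∈ Λ, openSegment ℝ (l.1 : ℂ) (l.2 : ℂ)

/-- Every gap, that is the closure of a connected component of the complement of the leaves in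
the disc, is a finite-sided ideal polygon: the convex hull of finitely many (at least three)
points of the circle. -/
def VeryFull (Λ : Set (Circle × Circle)) : Prop :=
  ∀ z ∈ complementary Λ, ∃ V : Finset Circle, 3 ≤ V.card ∧
    closure (connectedComponentIn (complementary Λ) z) =
      convexHull ℝ ((fun a : Circle => (a : ℂ)) '' (V : Set Circle))

/-- `Λ` is invariant under the group `G`. -/
def Inv (G : Subgroup HC) (Λ : Set (Circle × Circle)) : Prop :=
  ∀ g ∈ G, ∀ a b, (a, b) ∈ Λ → (g a, g b) ∈ Λ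

/-- The cusp points: fixed points of the parabolic elements, i.e. of the nontrivial elements with
exactly one fixed point. -/
def Cusps (G : Subgroup HC) : Set Circle :=
  {x | ∃ g ∈ G, g ≠ 1 ∧ {z | g z = z} = {x}}

/-- `G` is pants-like `COL_2`. -/
def PantsLike (G : Subgroup HC) : Prop :=
  ∃ Λ₁ Λ₂ : Set (Circle × Circle), IsLamination Λ₁ ∧ IsLamination Λ₂ ∧ Inv G Λ₁ ∧ Inv G Λ₂ ∧
    Dense (Ends Λ₁) ∧ Dense (Ends Λ₂) ∧ VeryFull Λ₁ ∧ VeryFull Λ₂ ∧ Λ₁ ∩ Λ₂ = ∅ ∧
    Ends Λ₁ ∩ Ends Λ₂ = Cusps G

/-- `G` has no nontrivial element of finite order. -/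
def TorsionFree (G : Subgroup HC) : Prop := ∀ g ∈ G, ∀ n : ℕ, 0 < n → g ^ n = 1 → g = 1

/-- the continuous map underlying a homeomorphism of the circle -/
noncomputable def toCM (f : HC) : C(Circle, Circle) := ⟨f, f.continuous⟩

/-- `G` is discrete in the compact-open topology: every element of `G` has a neighbourhood in
`C(S¹, S¹)` (compact-open topology) which contains no other element of `G`. -/
def Discrete (G : Subgroup HC) : Prop :=
  ∀ g ∈ G, ∃ U : Set C(Circle, Circle), IsOpen U ∧ toCM g ∈ U ∧ ∀ h ∈ G, toCM h ∈ U → h = g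

/-- `f` is the action on `∂ℍ²`, seen as the unit circle, of an element of `PSL(2,ℝ) ≅ PSU(1,1)`:
`z ↦ (αz + β)/(β̄z + ᾱ)` with `|α|² - |β|² = 1`. -/
def IsMoebius (f : HC) : Prop :=
  ∃ α β : ℂ, ‖α‖ ^ 2 - ‖β‖ ^ 2 = 1 ∧ ∀ z : Circle,
    (f z : ℂ) = (α * z + β) / ((starRingEnd ℂ) β * z + (starRingEnd ℂ) α)

/-- `G` is Fuchsian: conjugate in `Homeo⁺(S¹)` to a torsion-free discrete subgroup `H` of
`PSL(2,ℝ)` acting on `∂ℍ²`. -/
def IsFuchsian (G : Subgroup HC) : Prop :=
  ∃ (φ : HC) (H : Subgroup HC), OrientationPreserving φ ∧ (∀ h ∈ H, IsMoebius h) ∧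
    TorsionFree H ∧ Discrete H ∧ ∀ g : HC, g ∈ G ↔ φ * g * φ⁻¹ ∈ H

/-- The assertion of Q1. -/
def Q1 : Prop := ∀ G : Subgroup HC, Countable G → (∀ g ∈ G, OrientationPreserving g) →
  TorsionFree G → Discrete G → PantsLike G →
  (∀ g ∈ G, g ≠ 1 → {z : Circle | g z = z}.encard ≤ 2) → IsFuchsian G

/-! ## Coordinates -/

/-- parametrisation of the circle by `ℝ` (period 1) -/
noncomputable def E (t : ℝ) : Circle := Circle.exp (2 * Real.pi * t)

/-- coordinate in `[0,1)` -/
noncomputable def co (z : Circle) : ℝ := Int.fract (Complex.arg (z : ℂ) / (2 * Real.pi))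

/-- closed arc -/
def arc (a b : ℝ) : Set Circle := E '' Icc a b

theorem E_add_one (t : ℝ) : E (t + 1) = E t := by
  unfold E
  rw [mul_add, mul_one, Circle.exp_add, Circle.exp_two_pi, mul_one]

theorem E_add_int (t : ℝ) (n : ℤ) : E (t + n) = E t := by
  unfold E
  rw [Circle.exp_eq_exp]
  exact ⟨n, by ring⟩

theorem E_eq {s t : ℝ} : E s = E t ↔ ∃ n : ℤ, s = t + n := by
  unfold E
  rw [Circle.exp_eq_exp]
  have hpi := Real.pi_pos
  constructor
  · rintro ⟨n, hn⟩
    refine ⟨n, ?_⟩
    have : 2 * Real.pi * (s - (t + n)) = 0 := by linear_combination hn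
    rcases mul_eq_zero.1 this with h | h
    · exfalso; linarith
    · linarith
  · rintro ⟨n, hn⟩
    exact ⟨n, by rw [hn]; ring⟩

theorem co_nonneg (z : Circle) : 0 ≤ co z := Int.fract_nonneg _
theorem co_lt_one (z : Circle) : co z < 1 := Int.fract_lt_one _

theorem E_co (z : Circle) : E (co z) = z := by
  unfold co
  have h1 : Complex.arg (z : ℂ) / (2 * Real.pi)
      = Int.fract (Complex.arg (z : ℂ) / (2 * Real.pi)) + ⌊Complex.arg (z : ℂ) / (2 * Real.pi)⌋ := by
    rw [Int.fract_add_floor]
  rw [← E_add_int _ ⌊Complex.arg (z : ℂ) / (2 * Real.pi)⌋, ← h1]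
  unfold E
  rw [mul_div_cancel₀ _ (by positivity)]
  exact Circle.exp_arg z

theorem co_E (t : ℝ) : co (E t) = Int.fract t := by
  have h : E (co (E t)) = E t := E_co (E t)
  obtain ⟨n, hn⟩ := E_eq.1 h
  have h0 := co_nonneg (E t)
  have h1 := co_lt_one (E t)
  have : Int.fract t = co (E t) := by
    rw [Int.fract_eq_iff]
    exact ⟨h0, h1, -n, by rw [hn]; push_cast; ring⟩
  rw [this]

theorem co_E_of {t : ℝ} (h0 : 0 ≤ t) (h1 : t < 1) : co (E t) = t := by
  rw [co_E, Int.fract_eq_self.2 ⟨h0, h1⟩]

theorem co_inj {z w : Circle} (h : co z = co w) : z = w := by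
  rw [← E_co z, ← E_co w, h]

theorem E_surj (z : Circle) : ∃ t, 0 ≤ t ∧ t < 1 ∧ E t = z := ⟨co z, co_nonneg z, co_lt_one z, E_co z⟩

theorem E_surj' (a : ℝ) (z : Circle) : ∃ t, a ≤ t ∧ t < a + 1 ∧ E t = z := by
  refine ⟨Int.fract (co z - a) + a, by linarith [Int.fract_nonneg (co z - a)],
    by linarith [Int.fract_lt_one (co z - a)], ?_⟩
  have : Int.fract (co z - a) + a = co z + ((-⌊co z - a⌋ : ℤ) : ℝ) := by
    rw [Int.fract]; push_cast; ring
  rw [this, E_add_int, E_co]

theorem E_injOn {a s t : ℝ} (h1 : a ≤ s) (h2 : s < a + 1) (h3 : a ≤ t) (h4 : t < a + 1)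
    (h : E s = E t) : s = t := by
  obtain ⟨n, hn⟩ := E_eq.1 h
  have h5 : (-1 : ℝ) < n := by linarith
  have h6 : (n : ℝ) < 1 := by linarith
  have h7 : -1 < n := by exact_mod_cast h5
  have h8 : n < 1 := by exact_mod_cast h6
  have : n = 0 := by omega
  rw [hn, this]; simp

theorem continuous_E : Continuous E := by unfold E; fun_prop

/-- signed area in coordinates -/
theorem area_E (p q r : ℝ) : area (E p) (E q) (E r)
    = 4 * Real.sin (Real.pi * (q - p)) * Real.sin (Real.pi * (r - q))
      * Real.sin (Real.pi * (r - p)) := by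
  unfold area E
  simp only [Circle.coe_exp, Complex.exp_ofReal_mul_I_re, Complex.exp_ofReal_mul_I_im]
  have e1 : ∀ t : ℝ, Real.cos (2 * Real.pi * t) = 1 - 2 * Real.sin (Real.pi * t) ^ 2 := by
    intro t
    have : 2 * Real.pi * t = 2 * (Real.pi * t) := by ring
    rw [this, Real.cos_two_mul, Real.cos_sq']
    ring
  have e2 : ∀ t : ℝ, Real.sin (2 * Real.pi * t) = 2 * Real.sin (Real.pi * t) * Real.cos (Real.pi * t) := by
    intro t
    have : 2 * Real.pi * t = 2 * (Real.pi * t) := by ring
    rw [this, Real.sin_two_mul]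
  have e3 : ∀ u v : ℝ, Real.sin (Real.pi * (u - v)) = Real.sin (Real.pi * u) * Real.cos (Real.pi * v)
      - Real.cos (Real.pi * u) * Real.sin (Real.pi * v) := by
    intro u v
    rw [mul_sub, Real.sin_sub]
  rw [e1, e1, e1, e2, e2, e2, e3, e3, e3]
  have s1 := Real.sin_sq_add_cos_sq (Real.pi * p)
  have s2 := Real.sin_sq_add_cos_sq (Real.pi * q)
  have s3 := Real.sin_sq_add_cos_sq (Real.pi * r)
  generalize Real.sin (Real.pi * p) = a at *
  generalize Real.cos (Real.pi * p) = b at *
  generalize Real.sin (Real.pi * q) = c at *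
  generalize Real.cos (Real.pi * q) = d at *
  generalize Real.sin (Real.pi * r) = e at *
  generalize Real.cos (Real.pi * r) = f at *
  have hb : b ^ 2 = 1 - a ^ 2 := by linarith
  have hd : d ^ 2 = 1 - c ^ 2 := by linarith
  have hf : f ^ 2 = 1 - e ^ 2 := by linarith
  ring_nf
  simp only [hb, hd, hf]
  ring

theorem ccw_E {p q r : ℝ} (h1 : p < q) (h2 : q < r) (h3 : r < p + 1) : Ccw (E p) (E q) (E r) := by
  unfold Ccw
  rw [area_E]
  have hpi := Real.pi_pos
  have k : ∀ x : ℝ, 0 < x → x < 1 → 0 < Real.sin (Real.pi * x) := by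
    intro x hx hx1
    apply Real.sin_pos_of_pos_of_lt_pi
    · positivity
    · nlinarith
  have k1 := k (q - p) (by linarith) (by linarith)
  have k2 := k (r - q) (by linarith) (by linarith)
  have k3 := k (r - p) (by linarith) (by linarith)
  positivity

theorem area_rot (a b c : ℂ) : area b c a = area a b c := by unfold area; ring
theorem area_swap (a b c : ℂ) : area b a c = - area a b c := by unfold area; ring
theorem area_self (a b : ℂ) : area a b b = 0 := by unfold area; ring
theorem area_self' (a b : ℂ) : area a a b = 0 := by unfold area; ring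

theorem ccw_rot {a b c : Circle} (h : Ccw a b c) : Ccw b c a := by
  unfold Ccw at *; rw [area_rot]; exact h

theorem not_ccw_swap {a b c : Circle} (h : Ccw a b c) : ¬ Ccw b a c := by
  unfold Ccw at *; rw [area_swap]; linarith

/-- the points not on the positive side of the chord `E p, E q` form the arc from `p` to `q` -/
theorem not_ccw_iff {p q : ℝ} (h1 : p < q) (h2 : q < p + 1) (z : Circle) :
    ¬ Ccw (E p) (E q) z ↔ z ∈ arc p q := by
  obtain ⟨t, ht0, ht1, rfl⟩ := E_surj' p z
  constructor
  · intro h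
    refine ⟨t, ⟨ht0, ?_⟩, rfl⟩
    by_contra hc
    push Not at hc
    exact h (ccw_E h1 hc ht1)
  · rintro ⟨s, ⟨hs0, hs1⟩, hs⟩ h
    have : s = t := E_injOn hs0 (by linarith) ht0 ht1 hs
    subst this
    rcases hs0.eq_or_lt with h3 | h3
    · subst h3
      have h7 : (0 : ℝ) < area (E p) (E q) (E p) := h
      rw [area_rot, area_self'] at h7
      exact lt_irrefl _ h7
    · rcases hs1.eq_or_lt with h4 | h4
      · subst h4
        have h7 : (0 : ℝ) < area (E p) (E s) (E s) := h
        rw [area_self] at h7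
        exact lt_irrefl _ h7
      · have h5 := ccw_E h3 h4 h2
        exact not_ccw_swap (ccw_rot (ccw_rot h5)) h

theorem not_ccw_iff' {p q : ℝ} (h1 : p < q) (h2 : q < p + 1) (z : Circle) :
    ¬ Ccw (E q) (E p) z ↔ z ∈ arc q (p + 1) := by
  rw [← not_ccw_iff h2 (by linarith), E_add_one]

end Pool.Agent.W983.PL
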